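import Pool.Agent.W128.VA.Stm

set_option autoImplicit false
set_option linter.all false

namespace Pool.Agent.W918.VA.Eopp

open Finset
open Pool.Agent.W128.VA

/-- the linear map -/
noncomputable def E (σ s : ℤ) : Polynomial R0 →ₗ[ℂ] R0 :=
  Polynomial.lsum (R := ℂ) fun i : ℕ => LinearMap.mulLeft ℂ (PZ σ (s + i))

theorem eop_eq (σ s : ℤ) (p : R0) : eop σ s p = E σ s (tau σ p) := rfl

theorem E_mono (σ s : ℤ) (i : ℕ) (c : R0) : E σ s (Polynomial.monomial i c) = PZ σ (s + i) * c := by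
  unfold E
  rw [Polynomial.lsum_apply, Polynomial.sum_monomial_index]
  · rfl
  · simp

theorem E_XC (σ s : ℤ) (i : ℕ) (c : R0) :
    E σ s (Polynomial.X ^ i * Polynomial.C c) = PZ σ (s + i) * c := by
  rw [← E_mono]
  congr 1
  rw [mul_comm]
  exact Polynomial.C_mul_X_pow_eq_monomial

theorem E_nat (σ s : ℤ) (k : ℕ) (q : Polynomial R0) :
    E σ s ((k : Polynomial R0) * q) = (k : ℂ) • E σ s q := by
  rw [← nsmul_eq_mul, map_nsmul, Nat.cast_smul_eq_nsmul]

theorem PZ_nat (σ : ℤ) (a : ℕ) : PZ σ (a : ℤ) = P σ a := by simp [PZ]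

theorem PZ_neg (σ a : ℤ) (h : a < 0) : PZ σ a = 0 := by simp [PZ, not_le.2 h]

theorem main : S_TAUP → S_EOPP := by
  intro hT σ hσ s
  constructor
  · intro a
    rcases lt_or_ge a 0 with ha | ha
    · rw [PZ_neg σ a ha, PZ_neg σ (a - 1) (by omega), PZ_neg σ (a - 2) (by omega)]
      simp
    · obtain ⟨n, rfl⟩ := Int.eq_ofNat_of_zero_le ha
      rw [PZ_nat, eop_eq, (hT σ hσ n).1]
      have h0 : E σ s (Polynomial.C (P σ n)) = PZ σ s * P σ n := by
        have := E_XC σ s 0 (P σ n)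
        rw [pow_zero, one_mul] at this
        rw [this]
        simp
      have h1 : E σ s (Polynomial.X * Polynomial.C (PZ σ ((n : ℤ) - 1))) =
          PZ σ (s + 1) * PZ σ ((n : ℤ) - 1) := by
        have := E_XC σ s 1 (PZ σ ((n : ℤ) - 1))
        rw [pow_one] at this
        rw [this]
        simp
      have h2 : E σ s (Polynomial.X ^ 2 * Polynomial.C (PZ σ ((n : ℤ) - 2))) =
          PZ σ (s + 2) * PZ σ ((n : ℤ) - 2) := by
        have := E_XC σ s 2 (PZ σ ((n : ℤ) - 2))
        rw [this]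
        simp
      rw [map_add, map_sub, h0, h2, two_mul, map_add, h1, ← two_mul]
  · intro a
    rw [eop_eq, (hT σ hσ a).2, map_sum]
    refine Finset.sum_congr rfl fun i _ => ?_
    have : ((i : Polynomial R0) + 1) = ((i + 1 : ℕ) : Polynomial R0) := by push_cast; rfl
    rw [this, E_nat, E_XC]
    push_cast
    rfl

end Pool.Agent.W918.VA.Eopp
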